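import Mathlib

/-!
# Intertwining of a polynomial with its affine precomposition (MP_2eeab0_an, Q1)

For every algebraically closed field of characteristic zero and every degree `d ≥ 2` there is a
non-integrable polynomial `P` of degree `d` and an affine map `g ∉ Σ(P)` such that `P ∘ g` and `P`
are intertwined. For `d ≥ 3` the example `P = z^d - d z + (d + 1)` has several distinct critical
points.
-/

set_option autoImplicit false

open Polynomial

namespace Pool.Agent.Results.MP_2eeab0_an.AffinePrecomposition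

variable {K : Type*} [Field K]

/-- `g` is an affine map `z ↦ a z + b`, `a ≠ 0`. -/
def IsAffine (g : K[X]) : Prop := ∃ a b : K, a ≠ 0 ∧ g = C a * X + C b

/-- `B` is the inverse of the affine map `A`. -/
def IsInverse (A B : K[X]) : Prop := A.comp B = X ∧ B.comp A = X

/-- The zero set in `K × K` of a polynomial in two variables. -/
def zeroSet (F : K[X][X]) : Set (K × K) := {p | F.evalEval p.1 p.2 = 0}

/-- `P` and `Q` (of the same degree) are intertwined: the map `(z, w) ↦ (P z, Q w)` leaves
invariant an irreducible algebraic curve which projects onto each coordinate axis. -/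
def Intertwined (P Q : K[X]) : Prop :=
  P.natDegree = Q.natDegree ∧ ∃ F : K[X][X], Irreducible F ∧
    (fun p : K × K => (P.eval p.1, Q.eval p.2)) '' zeroSet F = zeroSet F ∧
    (∀ z : K, ∃ w : K, (z, w) ∈ zeroSet F) ∧ (∀ w : K, ∃ z : K, (z, w) ∈ zeroSet F)

/-- `P` is monic and centered (no term of degree `deg P - 1`). -/
def MonicCentered (P : K[X]) : Prop := P.Monic ∧ P.coeff (P.natDegree - 1) = 0

/-- `P = z^μ P₀(z^m)` with `P₀(0) ≠ 0` and `P₀` not of the form `Q(z^l)`, `l ≥ 2`. -/
def IsReducedForm (P : K[X]) (μ m : ℕ) (P₀ : K[X]) : Prop :=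
  0 < m ∧ P = X ^ μ * P₀.comp (X ^ m) ∧ P₀.eval 0 ≠ 0 ∧
    ¬ ∃ l : ℕ, 2 ≤ l ∧ ∃ Q : K[X], P₀ = Q.comp (X ^ l)

/-- `z ↦ ζ z` is in `Σ(P)`, for `P` monic and centered: `ζ^m = 1` if `P` is not a monomial and has
the reduced form `z^μ P₀(z^m)`; any root of unity if `P` is a monomial. -/
def RotationSymmetry (P : K[X]) (ζ : K) : Prop :=
  (∃ (μ m : ℕ) (P₀ : K[X]), IsReducedForm P μ m P₀ ∧ ζ ^ m = 1) ∨
    ((∃ n : ℕ, P = X ^ n) ∧ ∃ k : ℕ, 0 < k ∧ ζ ^ k = 1)

/-- The group `Σ(P)`: the maps `A ∘ σ ∘ A⁻¹`, where `A` is affine with `A⁻¹ ∘ P ∘ A` monic and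
centered and `σ ∈ Σ(A⁻¹ ∘ P ∘ A)` is a rotation `z ↦ ζ z`. -/
def SymmetryGroup (P : K[X]) : Set K[X] :=
  {g | ∃ A B : K[X], IsAffine A ∧ IsInverse A B ∧ MonicCentered (B.comp (P.comp A)) ∧
    ∃ ζ : K, RotationSymmetry (B.comp (P.comp A)) ζ ∧ g = A.comp ((C ζ * X).comp B)}

/-- `T` is the Chebyshev polynomial `T_d`: `T_d (w + w⁻¹) = w^d + w^{-d}`. -/
def IsChebyshev (d : ℕ) (T : K[X]) : Prop :=
  ∀ w : K, w ≠ 0 → T.eval (w + w⁻¹) = w ^ d + (w⁻¹) ^ d

/-- `P` is integrable: affinely conjugate to `z^d` or to `± T_d`, `d = deg P`. -/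
def IsIntegrable (P : K[X]) : Prop :=
  ∃ A Q : K[X], IsAffine A ∧ P.comp A = A.comp Q ∧
    (Q = X ^ P.natDegree ∨ ∃ T : K[X], IsChebyshev P.natDegree T ∧ (Q = T ∨ Q = -T))

/-! ### Chebyshev polynomials -/

theorem isChebyshev_C (d : ℕ) : IsChebyshev d (Chebyshev.C K d) := by
  intro w hw
  have h : ∀ n : ℕ, (Chebyshev.C K n).eval (w + w⁻¹) = w ^ n + (w⁻¹) ^ n ∧
      (Chebyshev.C K ((n + 1 : ℕ) : ℤ)).eval (w + w⁻¹) = w ^ (n + 1) + (w⁻¹) ^ (n + 1) := by
    intro n
    induction n with
    | zero => simp; norm_num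
    | succ n ih =>
      refine ⟨ih.2, ?_⟩
      have h1 : ((n + 1 + 1 : ℕ) : ℤ) = (n : ℤ) + 2 := by push_cast; ring
      have h2 : ((n + 1 : ℕ) : ℤ) = (n : ℤ) + 1 := by push_cast; ring
      rw [h1, Chebyshev.C_add_two, eval_sub, eval_mul, eval_X, ← h2, ih.1, ih.2]
      have h3 : w * w⁻¹ = 1 := mul_inv_cancel₀ hw
      linear_combination (w⁻¹ ^ n + w ^ n) * h3
  exact (h d).1

theorem exists_add_inv [IsAlgClosed K] (y : K) : ∃ w : K, w ≠ 0 ∧ w + w⁻¹ = y := by
  have hdeg : (X ^ 2 - C y * X + 1 : K[X]).degree = 2 := by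
    compute_degree!
  obtain ⟨w, hw⟩ := IsAlgClosed.exists_root (X ^ 2 - C y * X + 1 : K[X]) (by rw [hdeg]; norm_num)
  rw [IsRoot.def] at hw
  simp only [eval_add, eval_sub, eval_pow, eval_X, eval_mul, eval_C, eval_one] at hw
  have h0 : w ≠ 0 := by
    rintro rfl
    simp at hw
  refine ⟨w, h0, ?_⟩
  field_simp
  linear_combination hw

theorem IsChebyshev.eq [IsAlgClosed K] {d : ℕ} {T : K[X]} (h : IsChebyshev d T) :
    T = Chebyshev.C K d := by
  have : Infinite K := IsAlgClosed.instInfinite
  apply Polynomial.funext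
  intro y
  obtain ⟨w, hw, rfl⟩ := exists_add_inv y
  rw [h w hw, isChebyshev_C d w hw]

theorem derivative_C [CharZero K] (n : ℤ) :
    derivative (Chebyshev.C K n) = (n : K[X]) * Chebyshev.S K (n - 1) := by
  have h2 : (2 : K) ≠ 0 := two_ne_zero
  apply Polynomial.funext
  intro y
  have h := congrArg derivative (Chebyshev.C_comp_two_mul_X K n)
  rw [derivative_comp] at h
  have h3 := congrArg (eval (y / 2)) h
  have e1 : derivative (2 * X : K[X]) = 2 := by
    have : (2 : K[X]) = C 2 := rfl
    rw [this, derivative_C_mul, derivative_X, mul_one]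
  have e2 : derivative (2 * Chebyshev.T K n) = 2 * ((n : K[X]) * Chebyshev.U K (n - 1)) := by
    have : (2 : K[X]) = C 2 := rfl
    rw [this, derivative_C_mul, Chebyshev.T_derivative_eq_U]
  rw [e1, e2, ← Chebyshev.S_comp_two_mul_X] at h3
  have e3 : (2 : K) * (y / 2) = y := by field_simp
  simp only [eval_mul, eval_comp, eval_ofNat, eval_X, eval_intCast, e3] at h3
  rw [eval_mul, eval_intCast]
  exact mul_left_cancel₀ h2 h3

theorem C_sq (n : ℤ) : (Chebyshev.C K n) ^ 2 = 4 + (X ^ 2 - 4) * (Chebyshev.S K (n - 1)) ^ 2 := by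
  have h1 := Chebyshev.C_eq_S_sub_X_mul_S K n
  have h2 := Chebyshev.S_sq_add_S_sq K (n - 1)
  rw [sub_add_cancel] at h2
  rw [h1]
  linear_combination 4 * h2

/-- The critical values of `T_d` are `± 2`. -/
theorem critical_value [CharZero K] {d : ℕ} (hd : d ≠ 0) {y : K}
    (hy : (derivative (Chebyshev.C K d)).eval y = 0) :
    (Chebyshev.C K d).eval y = 2 ∨ (Chebyshev.C K d).eval y = -2 := by
  rw [derivative_C, eval_mul, eval_intCast] at hy
  have h1 : (Chebyshev.S K ((d : ℤ) - 1)).eval y = 0 := by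
    rcases mul_eq_zero.1 hy with h | h
    · exact absurd h (by exact_mod_cast hd)
    · exact h
  have h2 := congrArg (eval y) (C_sq (K := K) (d : ℤ))
  simp only [eval_pow, eval_add, eval_mul, eval_sub, eval_X, h1, eval_ofNat] at h2
  have h3 : (Chebyshev.C K (d : ℤ)).eval y ^ 2 = 2 ^ 2 := by
    rw [h2]; ring
  exact sq_eq_sq_iff_eq_or_eq_neg.1 h3

theorem eval_pm_two (d : ℕ) {e : K} (he : e = 2 ∨ e = -2) :
    (Chebyshev.C K d).eval e = 2 ∨ (Chebyshev.C K d).eval e = -2 := by
  rcases he with rfl | rfl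
  · exact Or.inl (Chebyshev.C_eval_two K d)
  · rw [Chebyshev.C_eval_neg_two]
    rcases Int.even_or_odd (d : ℤ) with h | h
    · left; rw [Int.negOnePow_even _ h]; simp
    · right; rw [Int.negOnePow_odd _ h]; simp

/-- An integrable polynomial of degree at least two has short critical orbits. -/
theorem IsIntegrable.orbit [IsAlgClosed K] [CharZero K] {P : K[X]} (hd : 2 ≤ P.natDegree)
    (h : IsIntegrable P) {x : K} (hx : (derivative P).eval x = 0) :
    ¬ (P.eval x ≠ P.eval (P.eval x) ∧ P.eval x ≠ P.eval (P.eval (P.eval x)) ∧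
      P.eval (P.eval x) ≠ P.eval (P.eval (P.eval x))) := by
  rintro ⟨h1, h2, h3⟩
  obtain ⟨A, Q, ⟨a, b, ha, rfl⟩, hconj, hQ⟩ := h
  have hev : ∀ y : K, P.eval (a * y + b) = a * Q.eval y + b := by
    intro y
    have := congrArg (eval y) hconj
    simpa [eval_comp] using this
  have hder : ∀ y : K, (derivative P).eval (a * y + b) = (derivative Q).eval y := by
    intro y
    have := congrArg (eval y) (congrArg derivative hconj)
    rw [derivative_comp, derivative_comp] at this
    simp [eval_comp] at this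
    rw [mul_comm] at this
    exact mul_right_cancel₀ ha this
  set y : K := (x - b) / a with hy
  have hxy : x = a * y + b := by rw [hy]; field_simp; ring
  have hcy : (derivative Q).eval y = 0 := by rw [← hder, ← hxy, hx]
  have key : ∀ s : Set K, (∀ e ∈ s, Q.eval e ∈ s) → Q.eval y ∈ s →
      (∃ u v : K, ∀ e ∈ s, e = u ∨ e = v) → False := by
    rintro s hs hys ⟨u, v, huv⟩
    have e1 : P.eval x = a * Q.eval y + b := by rw [hxy, hev]
    have e2 : P.eval (P.eval x) = a * Q.eval (Q.eval y) + b := by rw [e1, hev]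
    have e3 : P.eval (P.eval (P.eval x)) = a * Q.eval (Q.eval (Q.eval y)) + b := by rw [e2, hev]
    rw [e3, e2] at h3
    rw [e3, e1] at h2
    rw [e2, e1] at h1
    have k1 : Q.eval y ≠ Q.eval (Q.eval y) := fun h => h1 (by rw [← h])
    have k2 : Q.eval y ≠ Q.eval (Q.eval (Q.eval y)) := fun h => h2 (by rw [← h])
    have k3 : Q.eval (Q.eval y) ≠ Q.eval (Q.eval (Q.eval y)) := fun h => h3 (by rw [← h])
    rcases huv _ hys with g1 | g1 <;> rcases huv _ (hs _ hys) with g2 | g2 <;>
      rcases huv _ (hs _ (hs _ hys)) with g3 | g3 <;>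
      first
      | exact k1 (g1.trans g2.symm)
      | exact k2 (g1.trans g3.symm)
      | exact k3 (g2.trans g3.symm)
  rcases hQ with rfl | ⟨T, hT, hQT⟩
  · rw [derivative_X_pow, eval_mul, eval_pow, eval_X, eval_C] at hcy
    have hy0 : y = 0 := by
      rcases mul_eq_zero.1 hcy with h | h
      · exact absurd h (by exact_mod_cast (by omega : P.natDegree ≠ 0))
      · exact eq_zero_of_pow_eq_zero h
    apply key {0}
    · rintro e rfl
      simp; omega
    · rw [hy0]; simp; omega
    · exact ⟨0, 0, fun e he => Or.inl he⟩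
  · rw [hT.eq] at hQT
    have hd0 : P.natDegree ≠ 0 := by omega
    apply key {e | e = 2 ∨ e = -2}
    · intro e he
      have := eval_pm_two P.natDegree he
      rcases hQT with rfl | rfl
      · exact this
      · rw [eval_neg]
        rcases this with h | h
        · right; rw [h]
        · left; rw [h]; ring
    · rcases hQT with rfl | rfl
      · exact critical_value hd0 hcy
      · rw [derivative_neg, eval_neg, neg_eq_zero] at hcy
        rw [eval_neg]
        rcases critical_value hd0 hcy with h | h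
        · right; rw [h]
        · left; rw [h]; ring
    · exact ⟨2, -2, fun e he => he⟩

/-! ### Intertwining by an affine conjugacy -/

theorem intertwined_of_conj [IsAlgClosed K] {P Q : K[X]} {α β : K} (hα : α ≠ 0)
    (hdeg : P.natDegree = Q.natDegree) (hQ : 0 < Q.natDegree)
    (h : ∀ w : K, P.eval (α * w + β) = α * Q.eval w + β) : Intertwined P Q := by
  refine ⟨hdeg, X - Polynomial.C (Polynomial.C α⁻¹ * (X - Polynomial.C β)), irreducible_X_sub_C _,
    ?_, ?_, ?_⟩
  · have hz : ∀ p : K × K, p ∈ zeroSet (X - Polynomial.C (Polynomial.C α⁻¹ *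
        (X - Polynomial.C β)) : K[X][X]) ↔ p.1 = α * p.2 + β := by
      intro p
      simp only [zeroSet, Set.mem_ofPred_eq, evalEval_sub, evalEval_X, evalEval_C, eval_mul,
        eval_C, eval_sub, eval_X]
      constructor
      · intro h0
        have : p.2 = α⁻¹ * (p.1 - β) := by linear_combination h0
        rw [this]
        field_simp
        ring
      · intro h0
        rw [h0]
        field_simp
        ring
    ext p
    constructor
    · rintro ⟨q, hq, rfl⟩
      rw [hz] at hq ⊢
      simp only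
      rw [hq, h]
    · intro hp
      rw [hz] at hp
      have hsurj : ∃ w : K, Q.eval w = p.2 := by
        have hd : (Q - Polynomial.C p.2).natDegree = Q.natDegree := natDegree_sub_C
        have hd2 : (Q - Polynomial.C p.2).degree ≠ 0 := by
          intro h0
          have : (Q - Polynomial.C p.2).natDegree = 0 := natDegree_eq_of_degree_eq_some h0
          omega
        obtain ⟨w, hw⟩ := IsAlgClosed.exists_root _ hd2
        refine ⟨w, ?_⟩
        rw [IsRoot.def, eval_sub, eval_C, sub_eq_zero] at hw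
        exact hw
      obtain ⟨w, hw⟩ := hsurj
      refine ⟨(α * w + β, w), (hz _).2 rfl, ?_⟩
      apply Prod.ext
      · simp only
        rw [h, hw, hp]
      · exact hw
  · intro z
    refine ⟨α⁻¹ * (z - β), ?_⟩
    simp only [zeroSet, Set.mem_ofPred_eq, evalEval_sub, evalEval_X, evalEval_C, eval_mul,
        eval_C, eval_sub, eval_X]
    ring
  · intro w
    refine ⟨α * w + β, ?_⟩
    simp only [zeroSet, Set.mem_ofPred_eq, evalEval_sub, evalEval_X, evalEval_C, eval_mul,
        eval_C, eval_sub, eval_X]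
    field_simp
    ring

/-- For a monic centered polynomial all elements of `Σ(P)` fix `0`. -/
theorem not_mem_symmetryGroup [CharZero K] {P R g : K[X]} {d : ℕ} (hd : 2 ≤ d)
    (hP : P = X ^ d + R) (hR : R.natDegree < d - 1) (hg : g.eval 0 ≠ 0) :
    g ∉ SymmetryGroup P := by
  rintro ⟨A, B, ⟨a, b, ha, rfl⟩, ⟨hAB, -⟩, ⟨-, hcen⟩, ζ, -, rfl⟩
  apply hg
  have hB : B = C a⁻¹ * (X - C b) := by
    have h1 : C a * B + C b = X := by simpa using hAB
    have h2 : C a⁻¹ * (C a * B) = B := by
      rw [← mul_assoc, ← C_mul, inv_mul_cancel₀ ha, C_1, one_mul]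
    rw [← h2]
    congr 1
    linear_combination h1
  have hPd : P.natDegree = d := by
    rw [hP, natDegree_add_eq_left_of_natDegree_lt]
    · exact natDegree_X_pow d
    · rw [natDegree_X_pow]; omega
  have hBd : B.natDegree = 1 := by
    rw [hB, natDegree_C_mul (inv_ne_zero ha), natDegree_X_sub_C]
  have hAd : (C a * X + C b).natDegree = 1 := natDegree_linear ha
  rw [natDegree_comp, natDegree_comp, hPd, hBd, hAd, one_mul, mul_one] at hcen
  have hcen2 : (P.comp (C a * X + C b)).coeff (d - 1) = 0 := by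
    rw [hB] at hcen
    simp only [mul_comp, C_comp, sub_comp, X_comp, coeff_C_mul, coeff_sub] at hcen
    rw [coeff_C_of_ne_zero (by omega), sub_zero] at hcen
    exact (mul_eq_zero.1 hcen).resolve_left (inv_ne_zero ha)
  have hR2 : (R.comp (C a * X + C b)).coeff (d - 1) = 0 := by
    apply coeff_eq_zero_of_natDegree_lt
    rw [natDegree_comp, hAd, mul_one]
    exact hR
  have hlin : (C a * X + C b : K[X]) = C a * (X + C (b / a)) := by
    rw [mul_add, ← C_mul, mul_div_cancel₀ b ha]
  have hb : b = 0 := by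
    rw [hP, add_comp, coeff_add, hR2, add_zero, X_pow_comp, hlin, mul_pow, ← C_pow, coeff_C_mul,
      coeff_X_add_C_pow, show d - (d - 1) = 1 by omega, pow_one] at hcen2
    have h1 : ((d.choose (d - 1) : ℕ) : K) ≠ 0 := by
      have : d.choose (d - 1) ≠ 0 := (Nat.choose_pos (by omega)).ne'
      exact_mod_cast this
    rcases mul_eq_zero.1 hcen2 with h | h
    · exact absurd h (pow_ne_zero _ ha)
    · rcases mul_eq_zero.1 h with h | h
      · rcases div_eq_zero_iff.1 h with h | h
        · exact h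
        · exact absurd h ha
      · exact absurd h h1
  rw [hB, hb]
  simp

/-- **Negative answer to Q1**, over every algebraically closed field of characteristic zero and in
every degree `d ≥ 2`; for `d ≥ 3` the polynomial can be chosen with two distinct critical
points. -/
theorem result (K : Type*) [Field K] [IsAlgClosed K] [CharZero K] (d : ℕ) (hd : 2 ≤ d) :
    ∃ P g : K[X], P.natDegree = d ∧ ¬ IsIntegrable P ∧ IsAffine g ∧
      Intertwined (P.comp g) P ∧ g ∉ SymmetryGroup P ∧
      (3 ≤ d → ∃ x y : K, x ≠ y ∧ (derivative P).eval x = 0 ∧ (derivative P).eval y = 0) := by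
  rcases Nat.lt_or_ge d 3 with hd3 | hd3
  · obtain rfl : d = 2 := by omega
    have hdeg : (X ^ 2 + C 1 : K[X]).natDegree = 2 := natDegree_X_pow_add_C
    refine ⟨X ^ 2 + C 1, C (1 / 2) * X + C (3 / 2), hdeg, ?_,
      ⟨1 / 2, 3 / 2, by norm_num, rfl⟩, ?_, ?_, fun h => absurd h (by norm_num)⟩
    · intro hint
      refine hint.orbit (x := 0) (by rw [hdeg]) (by simp) ⟨?_, ?_, ?_⟩ <;> norm_num
    · refine intertwined_of_conj (α := 4) (β := -3) (by norm_num) ?_ (by rw [hdeg]; norm_num) ?_
      · rw [natDegree_comp, hdeg, natDegree_linear (by norm_num)]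
      · intro w
        simp
        ring
    · refine not_mem_symmetryGroup (R := C 1) le_rfl rfl (by simp) (by simp)
  · -- the polynomial `z^d - d z + (d + 1)`
    set P : K[X] := X ^ d + (-(C (d : K) * X) + C ((d : K) + 1)) with hP
    have hR : (-(C (d : K) * X) + C ((d : K) + 1)).natDegree < d - 1 := by
      have : (-(C (d : K) * X) + C ((d : K) + 1)).natDegree ≤ 1 := by compute_degree
      omega
    have hdeg : P.natDegree = d := by
      rw [hP, natDegree_add_eq_left_of_natDegree_lt]
      · exact natDegree_X_pow d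
      · rw [natDegree_X_pow]; omega
    have hev : ∀ z : K, P.eval z = z ^ d - d * z + (d + 1) := by
      intro z
      rw [hP]
      simp
      ring
    have hder : ∀ z : K, (derivative P).eval z = d * (z ^ (d - 1) - 1) := by
      intro z
      rw [hP, derivative_add, derivative_X_pow]
      simp
      ring
    -- a nontrivial root of unity
    obtain ⟨ζ, hζ1, hζ⟩ : ∃ ζ : K, ζ ≠ 1 ∧ ζ ^ (d - 1) = 1 := by
      have : NeZero (d - 1 : ℕ) := ⟨by omega⟩
      have : NeZero ((d - 1 : ℕ) : K) := ⟨by exact_mod_cast (by omega : d - 1 ≠ 0)⟩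
      obtain ⟨ζ, hζ⟩ := HasEnoughRootsOfUnity.exists_primitiveRoot K (d - 1)
      exact ⟨ζ, hζ.ne_one (by omega), hζ.pow_eq_one⟩
    have hζ0 : ζ ≠ 0 := by
      rintro rfl
      rw [zero_pow (by omega)] at hζ
      exact zero_ne_one hζ
    have hζd : ζ ^ d = ζ := by
      conv_lhs => rw [show d = (d - 1) + 1 by omega, pow_succ, hζ, one_mul]
    have hdK : (d : K) + 1 ≠ 0 := by exact_mod_cast Nat.succ_ne_zero d
    refine ⟨P, C 1 * X + C ((ζ - 1) * (d + 1)), hdeg, ?_, ⟨1, _, one_ne_zero, rfl⟩, ?_, ?_, ?_⟩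
    · intro hint
      have hn : ∀ n : ℕ, P.eval ((n : ℕ) : K) = (((n : ℤ) ^ d - d * n + (d + 1) : ℤ) : K) := by
        intro n
        rw [hev]
        push_cast
        ring
      have hP1 : P.eval 1 = ((2 : ℕ) : K) := by
        rw [hev]; push_cast; ring
      -- the orbit of the critical value
      have hlow : ∀ n : ℕ, 2 ≤ n → ∃ m : ℕ, n < m ∧ P.eval (n : K) = (m : K) := by
        intro n hn2
        have h1 : (n : ℤ) + 1 ≤ (n : ℤ) ^ d - d * n + (d + 1) := by
          have key : ∀ k : ℕ, 3 ≤ k → (n : ℤ) * (k + 1) ≤ (n : ℤ) ^ k + k := by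
            intro k hk
            induction k, hk using Nat.le_induction with
            | base =>
              have : (2 : ℤ) ≤ n := by exact_mod_cast hn2
              push_cast
              nlinarith [mul_self_nonneg ((n : ℤ) - 2)]
            | succ k hk ih =>
              have h2 : (2 : ℤ) ≤ n := by exact_mod_cast hn2
              have h3 : (n : ℤ) * (n ^ k) ≥ n * (n * (k + 1) - k) := by
                apply mul_le_mul_of_nonneg_left _ (by omega)
                linarith
              have hk' : (3 : ℤ) ≤ k := by exact_mod_cast hk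
              have h4 : (0 : ℤ) ≤ (k + 1) * ((n : ℤ) - 1) ^ 2 := by positivity
              rw [pow_succ]
              push_cast
              nlinarith
          have := key d hd3
          linarith
        obtain ⟨m, hm⟩ : ∃ m : ℕ, (m : ℤ) = (n : ℤ) ^ d - d * n + (d + 1) :=
          ⟨((n : ℤ) ^ d - d * n + (d + 1)).toNat, Int.toNat_of_nonneg (by omega)⟩
        refine ⟨m, by omega, ?_⟩
        rw [hn, ← hm]
        simp
      obtain ⟨m, hm, hPm⟩ := hlow 2 le_rfl
      obtain ⟨l, hl, hPl⟩ := hlow m hm.le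
      refine hint.orbit (x := 1) (by rw [hdeg]; exact hd) (by rw [hder]; simp) ?_
      rw [hP1, hPm, hPl]
      refine ⟨?_, ?_, ?_⟩
      · exact_mod_cast hm.ne
      · exact_mod_cast (hm.trans hl).ne
      · exact_mod_cast hl.ne
    · refine intertwined_of_conj (α := ζ) (β := (1 - ζ) * (d + 1)) hζ0 ?_
        (by rw [hdeg]; omega) ?_
      · rw [natDegree_comp, natDegree_linear one_ne_zero, mul_one]
      · intro w
        have : (ζ * w + (1 - ζ) * ((d : K) + 1)) + (ζ - 1) * (d + 1) = ζ * w := by ring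
        rw [eval_comp]
        simp only [map_one, one_mul, eval_add, eval_X, eval_C]
        rw [this, hev, hev, mul_pow, hζd]
        ring
    · refine not_mem_symmetryGroup hd hP hR ?_
      simp only [map_one, one_mul, eval_add, eval_X, eval_C, zero_add]
      exact mul_ne_zero (sub_ne_zero.2 hζ1) hdK
    · intro _
      refine ⟨1, ζ, hζ1.symm, ?_, ?_⟩
      · rw [hder]; simp
      · rw [hder, hζ]; simp

end Pool.Agent.Results.MP_2eeab0_an.AffinePrecomposition
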